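import Mathlib
import Pool.Agent.H673R2.TsTree

set_option autoImplicit false

/-!
# Exponential domination in trees of bounded maximum degree

For every `Δ ≥ 6` the bound `γ_e(T) = Ω(n / log n)` fails for trees of maximum degree at most `Δ`,
by a power of `n`: there are trees `T` of maximum degree at most `6` with arbitrarily large order
`n` and `γ_e(T) ≤ n ^ (4/5)`.

The tree: join the roots of two complete trees in which every inner vertex has five children, one
of depth `4 m` and one of depth `5 m`; the dominating set consists of the leaves of the first one.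
The second root receives weight `5 ^ (4 m) / 2 ^ (4 m)`, and this is at least `2 ^ (5 m)` because
`625 ≥ 512`.
-/

namespace Pool.Agent.Results.MP_75fda7_co.Disproof

open Finset

section defs

variable {V : Type} (G : SimpleGraph V) (S : Finset V)

/-- `p` is a path exactly one endvertex of which lies in `S`, without internal vertex in `S`. -/
def Admissible {G : SimpleGraph V} {u v : V} (p : G.Walk u v) : Prop :=
  p.IsPath ∧ (({u, v} : Set V) ∩ S).ncard = 1 ∧ ∀ x ∈ p.support, x ≠ u → x ≠ v → x ∉ S

/-- The distance `dist_{(G,S)}(u,v)`, infinite if there is no admissible path. -/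
noncomputable def distS (u v : V) : ℕ∞ :=
  ⨅ (p : G.Walk u v) (_ : Admissible S p), (p.length : ℕ∞)

/-- `(1/2)^(d-1)`, with value `0` for `d = ∞`. -/
noncomputable def decay (d : ℕ∞) : ℝ :=
  if d = ⊤ then 0 else (1 / 2 : ℝ) ^ ((d.toNat : ℤ) - 1)

/-- The weight `w_{(G,S)}(u)`. -/
noncomputable def weight (u : V) : ℝ := ∑ v ∈ S, decay (distS G S u v)

/-- `S` is an exponential dominating set of `G`. -/
def IsExpDominating : Prop := ∀ u : V, 1 ≤ weight G S u

/-- The exponential domination number. -/
noncomputable def gammaE : ℕ := sInf {k : ℕ | ∃ S : Finset V, S.card = k ∧ IsExpDominating G S}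

end defs

/-- The assertion for the degree bound `Δ`: there is `c > 0` such that `γ_e(T) ≥ c n / log n` for
all trees `T` of maximum degree at most `Δ` and order `n ≥ 2`. -/
def BoundFor (Δ : ℕ) : Prop :=
  ∃ c : ℝ, 0 < c ∧ ∀ (V : Type) [Fintype V] (T : SimpleGraph V), T.IsTree →
    (∀ v, (T.neighborSet v).ncard ≤ Δ) → 2 ≤ Fintype.card V →
      c * ((Fintype.card V : ℝ) / Real.log (Fintype.card V)) ≤ gammaE T

/-! ### General facts -/

section general

variable {V : Type} {G : SimpleGraph V} {S : Finset V}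

lemma decay_nonneg (d : ℕ∞) : 0 ≤ decay d := by
  unfold decay
  split_ifs
  · exact le_rfl
  · positivity

lemma decay_ge {d : ℕ∞} {L : ℕ} (h : d ≤ L) : 2 * (1 / 2 : ℝ) ^ L ≤ decay d := by
  unfold decay
  have h1 : d ≠ ⊤ := ne_top_of_le_ne_top (ENat.natCast_ne_top L) h
  rw [if_neg h1]
  have h2 : d.toNat ≤ L := by
    have := ENat.toNat_le_toNat h (ENat.natCast_ne_top L)
    simpa using this
  rw [zpow_sub_one₀ (by norm_num)]
  have h3 : (1 / 2 : ℝ) ^ L ≤ (1 / 2 : ℝ) ^ d.toNat :=
    pow_le_pow_of_le_one (by norm_num) (by norm_num) h2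
  rw [zpow_natCast]
  have h4 : ((1 / 2 : ℝ))⁻¹ = 2 := by norm_num
  rw [h4]
  linarith

/-- there is a walk of length `L` from `u` to `v` all vertices of which, except possibly `v`, lie
outside `S` -/
def Reach (G : SimpleGraph V) (S : Finset V) (L : ℕ) (u v : V) : Prop :=
  ∃ p : G.Walk u v, p.length = L ∧ ∀ x ∈ p.support, x ∈ S → x = v

lemma Reach.refl (u : V) : Reach G S 0 u u := by
  refine ⟨SimpleGraph.Walk.nil, rfl, ?_⟩
  intro x hx _
  simpa using hx

lemma Reach.cons {L : ℕ} {u v w : V} (h : G.Adj u v) (hu : u ∉ S) (hr : Reach G S L v w) :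
    Reach G S (L + 1) u w := by
  obtain ⟨p, hp, hS⟩ := hr
  refine ⟨SimpleGraph.Walk.cons h p, by simp [hp], ?_⟩
  intro x hx hxS
  rw [SimpleGraph.Walk.support_cons, List.mem_cons] at hx
  rcases hx with rfl | hx
  · exact absurd hxS hu
  · exact hS x hx hxS

lemma Reach.distS_le {L : ℕ} {u v : V} (h : Reach G S L u v) (hu : u ∉ S) (hv : v ∈ S) :
    distS G S u v ≤ L := by
  classical
  obtain ⟨p, hp, hS⟩ := h
  unfold distS
  have hadm : Admissible S p.bypass := by
    refine ⟨p.bypass_isPath, ?_, ?_⟩
    · have : (({u, v} : Set V) ∩ S) = {v} := by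
        ext x
        simp only [Set.mem_inter_iff, Set.mem_insert_iff, Set.mem_singleton_iff, mem_coe]
        constructor
        · rintro ⟨rfl | rfl, h2⟩
          · exact absurd h2 hu
          · rfl
        · rintro rfl
          exact ⟨Or.inr rfl, hv⟩
      rw [this, Set.ncard_singleton]
    · intro x hx _ hxv hxS
      exact hxv (hS x (p.support_bypass_subset_support hx) hxS)
  refine le_trans (iInf₂_le p.bypass hadm) ?_
  have := p.length_bypass_le_length
  rw [← hp]
  exact_mod_cast this

lemma weight_ge {L : ℕ} {u : V} (hu : u ∉ S) (S' : Finset V) (hS' : S' ⊆ S)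
    (h : ∀ v ∈ S', Reach G S L u v) (hcard : (2 : ℝ) ^ L ≤ 2 * S'.card) : 1 ≤ weight G S u := by
  unfold weight
  calc (1 : ℝ) = 2 ^ L * (1 / 2) ^ L := by rw [← mul_pow]; norm_num
    _ ≤ 2 * S'.card * (1 / 2) ^ L := by gcongr
    _ = ∑ v ∈ S', 2 * (1 / 2 : ℝ) ^ L := by rw [sum_const, nsmul_eq_mul]; ring
    _ ≤ ∑ v ∈ S', decay (distS G S u v) :=
        sum_le_sum fun v hv => decay_ge ((h v hv).distS_le hu (hS' hv))
    _ ≤ ∑ v ∈ S, decay (distS G S u v) :=
        sum_le_sum_of_subset_of_nonneg hS' fun _ _ _ => decay_nonneg _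

lemma weight_mem {u : V} (hu : u ∈ S) : 1 ≤ weight G S u := by
  unfold weight
  have h1 : distS G S u u ≤ (0 : ℕ) := by
    unfold distS
    have hadm : Admissible S (SimpleGraph.Walk.nil : G.Walk u u) := by
      refine ⟨SimpleGraph.Walk.IsPath.nil, ?_, ?_⟩
      · have : (({u, u} : Set V) ∩ S) = {u} := by
          ext x
          simp only [Set.mem_inter_iff, Set.mem_insert_iff, Set.mem_singleton_iff, mem_coe]
          constructor
          · rintro ⟨rfl | rfl, h2⟩ <;> rfl
          · rintro rfl
            exact ⟨Or.inr rfl, hu⟩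
        rw [this, Set.ncard_singleton]
      · intro x hx hxu _
        simp at hx
        exact absurd hx hxu
    refine le_trans (iInf₂_le _ hadm) ?_
    simp
  calc (1 : ℝ) ≤ decay (distS G S u u) := by
        have := decay_ge h1
        linarith
    _ ≤ _ := single_le_sum (f := fun v => decay (distS G S u v)) (fun _ _ => decay_nonneg _) hu

end general

/-! ### The tree -/

/-- A pair (side, word): side `false` is the tree of depth `4 m`, side `true` the tree of depth
`5 m`. -/
def bound (m : ℕ) (b : Bool) : ℕ := if b then 5 * m else 4 * m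

/-- The vertices. -/
abbrev Vt (m : ℕ) : Type := {x : Bool × List (Fin 5) // x.2.length ≤ bound m x.1}

instance (m : ℕ) : Finite (Vt m) := by
  have h : Set.Finite {x : Bool × List (Fin 5) | x.2.length ≤ bound m x.1} := by
    refine Set.Finite.subset
      (Set.Finite.prod (Set.finite_univ (α := Bool)) (List.finite_length_le (Fin 5) (5 * m))) ?_
    rintro ⟨b, l⟩ h
    refine ⟨Set.mem_univ _, ?_⟩
    have h2 : l.length ≤ bound m b := h
    have : bound m b ≤ 5 * m := by unfold bound; split_ifs <;> omega
    exact le_trans h2 this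
  exact h.to_subtype

noncomputable instance (m : ℕ) : Fintype (Vt m) := Fintype.ofFinite _

/-- The root. -/
def root (m : ℕ) : Vt m := ⟨(false, []), Nat.zero_le _⟩

/-- The root of the second tree. -/
def root2 (m : ℕ) : Vt m := ⟨(true, []), Nat.zero_le _⟩

/-- The parent. -/
def par (m : ℕ) (x : Vt m) : Vt m :=
  match x with
  | ⟨(_, []), _⟩ => root m
  | ⟨(b, _ :: l), h⟩ => ⟨(b, l), le_trans (by simp) h⟩

/-- The level. -/
def lev (m : ℕ) (x : Vt m) : ℕ := x.1.2.length + (if x.1.1 then 1 else 0)

lemma lev_par (m : ℕ) (x : Vt m) (hx : x ≠ root m) : lev m (par m x) < lev m x := by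
  match x with
  | ⟨(false, []), h⟩ => exact absurd rfl hx
  | ⟨(true, []), h⟩ => simp [lev, par, root]
  | ⟨(true, a :: l), h⟩ => simp [lev, par]
  | ⟨(false, a :: l), h⟩ => simp [lev, par]

/-- The tree. -/
def T (m : ℕ) : SimpleGraph (Vt m) :=
  SimpleGraph.fromRel fun x y : Vt m => x ≠ root m ∧ y = par m x

lemma isTree (m : ℕ) : (T m).IsTree :=
  Pool.Agent.H673R2.Ts.isTree_of_parent (root m) (par m) (lev m) (lev_par m)

lemma adj_par (m : ℕ) (x : Vt m) (hx : x ≠ root m) : (T m).Adj x (par m x) := by
  rw [T, SimpleGraph.fromRel_adj]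
  refine ⟨fun h => ?_, Or.inl ⟨hx, rfl⟩⟩
  have := lev_par m x hx
  rw [← h] at this
  omega

/-- The child number `a`. -/
def child (m : ℕ) (x : Vt m) (a : Fin 5) : Vt m :=
  if h : (a :: x.1.2).length ≤ bound m x.1.1 then ⟨(x.1.1, a :: x.1.2), h⟩ else root m

lemma degree_le (m : ℕ) (x : Vt m) : ((T m).neighborSet x).ncard ≤ 6 := by
  classical
  let f : Option (Fin 5) → Vt m := fun o =>
    match o with
    | none => if x = root m then root2 m else par m x
    | some a => child m x a
  have hsub : (T m).neighborSet x ⊆ Set.range f := by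
    intro y hy
    rw [SimpleGraph.mem_neighborSet, T, SimpleGraph.fromRel_adj] at hy
    rcases hy with ⟨-, ⟨h1, h2⟩ | ⟨h1, h2⟩⟩
    · exact ⟨none, by simp only [f]; rw [if_neg h1, h2]⟩
    · match y, h1, h2 with
      | ⟨(false, []), h⟩, h1, h2 => exact absurd rfl h1
      | ⟨(true, []), h⟩, h1, h2 =>
        refine ⟨none, ?_⟩
        have hx : x = root m := h2
        simp only [f]
        rw [if_pos hx]
        rfl
      | ⟨(b, a :: l), h⟩, h1, h2 =>
        refine ⟨some a, ?_⟩
        have hx : x = ⟨(b, l), le_trans (by simp) h⟩ := h2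
        simp only [f, child]
        subst hx
        have h' : (a :: l).length ≤ bound m b := h
        rw [dif_pos h']
  calc ((T m).neighborSet x).ncard ≤ (Set.range f).ncard :=
        Set.ncard_le_ncard hsub (Set.finite_range f)
    _ ≤ Nat.card (Option (Fin 5)) := by
        rw [← Set.image_univ]
        refine le_trans (Set.ncard_image_le Set.finite_univ) ?_
        rw [Set.ncard_univ]
    _ = 6 := by simp

/-- The leaves of the first tree. -/
noncomputable def S (m : ℕ) : Finset (Vt m) := by
  classical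
  exact univ.filter fun x => x.1.1 = false ∧ x.1.2.length = 4 * m

lemma mem_S (m : ℕ) (x : Vt m) : x ∈ S m ↔ x.1.1 = false ∧ x.1.2.length = 4 * m := by
  simp [S]

/-- the word `l` as a vertex of the first tree -/
def vf (m : ℕ) (l : List (Fin 5)) (h : l.length ≤ 4 * m) : Vt m :=
  ⟨(false, l), by simpa [bound] using h⟩

/-- the word `l` as a vertex of the second tree -/
def vt (m : ℕ) (l : List (Fin 5)) (h : l.length ≤ 5 * m) : Vt m :=
  ⟨(true, l), by simpa [bound] using h⟩

lemma card_S_le (m : ℕ) : (S m).card ≤ 5 ^ (4 * m) := by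
  classical
  have : S m ⊆ (univ : Finset (Fin (4 * m) → Fin 5)).image
      (fun g => vf m (List.ofFn g) (by simp)) := by
    intro x hx
    rw [mem_S] at hx
    obtain ⟨⟨b, l⟩, h⟩ := x
    obtain ⟨h1, h2⟩ := hx
    simp only at h1 h2
    subst h1
    rw [mem_image]
    refine ⟨fun i => l.get (Fin.cast h2.symm i), mem_univ _, ?_⟩
    unfold vf
    congr 2
    apply List.ext_get
    · simp [h2]
    · intro n h3 h4
      simp
  calc (S m).card ≤ _ := card_le_card this
    _ ≤ _ := card_image_le
    _ = 5 ^ (4 * m) := by simp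

lemma card_V_ge (m : ℕ) : 5 ^ (5 * m) ≤ Fintype.card (Vt m) := by
  have h := Fintype.card_le_of_injective
    (fun g : Fin (5 * m) → Fin 5 => vt m (List.ofFn g) (by simp)) (by
      intro g g' h
      simp only [vt, Subtype.mk.injEq, Prod.mk.injEq, true_and] at h
      exact List.ofFn_injective h)
  simpa using h

/-- going down in the first tree -/
lemma reach_down (m : ℕ) (w : List (Fin 5)) : ∀ (l : List (Fin 5)) (h : (w ++ l).length ≤ 4 * m)
    (_ : w.length + l.length = 4 * m),
    Reach (T m) (S m) w.length (vf m l (by simp at h; omega)) (vf m (w ++ l) h) := by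
  induction w using List.reverseRecOn with
  | nil =>
    intro l h _
    exact Reach.refl _
  | append_singleton w a ih =>
    intro l h hl
    have hl' : w.length + 1 + l.length = 4 * m := by simpa using hl
    have h1 : (w ++ (a :: l)).length ≤ 4 * m := by simp; omega
    have h2 := ih (a :: l) h1 (by simp; omega)
    have h3 : (T m).Adj (vf m l (by omega)) (vf m (a :: l) (by simp; omega)) := by
      have := adj_par m (vf m (a :: l) (by simp; omega)) (by simp [vf, root])
      exact this.symm
    have h4 : vf m l (by omega) ∉ S m := by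
      rw [mem_S]
      rintro ⟨-, h5⟩
      simp [vf] at h5
      omega
    have h5 := Reach.cons h3 h4 h2
    have h6 : (w ++ [a]).length = w.length + 1 := by simp
    have h7 : vf m (w ++ [a] ++ l) h = vf m (w ++ (a :: l)) h1 := by
      unfold vf
      congr 2
      simp
    rw [h6, h7]
    exact h5

/-- going up in the second tree -/
lemma reach_up (m : ℕ) (L : ℕ) (v : Vt m) (hr : Reach (T m) (S m) L (root m) v) :
    ∀ (l : List (Fin 5)) (h : l.length ≤ 5 * m),
      Reach (T m) (S m) (L + (l.length + 1)) (vt m l h) v := by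
  intro l
  induction l with
  | nil =>
    intro h
    have h3 : (T m).Adj (vt m [] h) (root m) := by
      have := adj_par m (vt m [] h) (by simp [vt, root])
      exact this
    have h4 : vt m [] h ∉ S m := by
      rw [mem_S]
      rintro ⟨h5, -⟩
      simp [vt] at h5
    exact Reach.cons h3 h4 hr
  | cons a l ih =>
    intro h
    have h3 : (T m).Adj (vt m (a :: l) h) (vt m l (by simp at h; omega)) := by
      have := adj_par m (vt m (a :: l) h) (by simp [vt, root])
      exact this
    have h4 : vt m (a :: l) h ∉ S m := by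
      rw [mem_S]
      rintro ⟨h5, -⟩
      simp [vt] at h5
    exact Reach.cons h3 h4 (ih _)

/-- The leaves below the vertex `l` of the first tree. -/
noncomputable def below (m : ℕ) (l : List (Fin 5)) (k : ℕ) (h : k + l.length = 4 * m) :
    Finset (Vt m) := by
  classical
  exact (univ : Finset (Fin k → Fin 5)).image fun g => vf m (List.ofFn g ++ l) (by simp; omega)

lemma card_below (m : ℕ) (l : List (Fin 5)) (k : ℕ) (h : k + l.length = 4 * m) :
    (below m l k h).card = 5 ^ k := by
  classical
  unfold below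
  rw [card_image_of_injective]
  · simp
  · intro g g' hg
    simp only [vf, Subtype.mk.injEq, Prod.mk.injEq, true_and] at hg
    exact List.ofFn_injective (List.append_cancel_right hg)

lemma below_subset (m : ℕ) (l : List (Fin 5)) (k : ℕ) (h : k + l.length = 4 * m) :
    below m l k h ⊆ S m := by
  classical
  intro x hx
  unfold below at hx
  rw [mem_image] at hx
  obtain ⟨g, -, rfl⟩ := hx
  rw [mem_S]
  simp [vf, h]

lemma reach_below (m : ℕ) (l : List (Fin 5)) (k : ℕ) (h : k + l.length = 4 * m) (v : Vt m)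
    (hv : v ∈ below m l k h) : Reach (T m) (S m) k (vf m l (by omega)) v := by
  classical
  unfold below at hv
  rw [mem_image] at hv
  obtain ⟨g, -, rfl⟩ := hv
  have := reach_down m (List.ofFn g) l (by simp; omega) (by simp; omega)
  simpa using this

lemma pow_aux (m : ℕ) : (2 : ℝ) ^ (9 * m) ≤ 5 ^ (4 * m) := by
  rw [pow_mul, pow_mul]
  exact pow_le_pow_left₀ (by norm_num) (by norm_num) m

lemma dominating (m : ℕ) : IsExpDominating (T m) (S m) := by
  intro u
  by_cases hu : u ∈ S m
  · exact weight_mem hu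
  · obtain ⟨⟨b, l⟩, hb⟩ := u
    cases b with
    | false =>
      have hl : l.length ≤ 4 * m := by simpa [bound] using hb
      have hne : l.length ≠ 4 * m := by
        intro h
        exact hu ((mem_S _ _).2 ⟨rfl, h⟩)
      obtain ⟨k, hk⟩ := Nat.exists_eq_add_of_le hl
      have hk' : k + l.length = 4 * m := by omega
      refine weight_ge (L := k) hu (below m l k hk') (below_subset _ _ _ _)
        (fun v hv => reach_below m l k hk' v hv) ?_
      rw [card_below]
      push_cast
      have : (2 : ℝ) ^ k ≤ 5 ^ k := pow_le_pow_left₀ (by norm_num) (by norm_num) k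
      have h5 : (0 : ℝ) ≤ 5 ^ k := by positivity
      linarith
    | true =>
      have hl : l.length ≤ 5 * m := by simpa [bound] using hb
      have hroot : (4 * m) + ([] : List (Fin 5)).length = 4 * m := by simp
      refine weight_ge (L := 4 * m + (l.length + 1)) hu (below m [] (4 * m) hroot)
        (below_subset _ _ _ _) (fun v hv => ?_) ?_
      · have h1 := reach_below m [] (4 * m) hroot v hv
        exact reach_up m (4 * m) v h1 l hl
      · rw [card_below]
        push_cast
        calc (2 : ℝ) ^ (4 * m + (l.length + 1)) ≤ 2 ^ (9 * m + 1) := by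
              apply pow_le_pow_right₀ (by norm_num)
              omega
          _ = 2 * 2 ^ (9 * m) := by ring
          _ ≤ _ := by
              have := pow_aux m
              linarith

lemma gamma_le (m : ℕ) : gammaE (T m) ≤ 5 ^ (4 * m) :=
  le_trans (Nat.sInf_le ⟨S m, rfl, dominating m⟩) (card_S_le m)

lemma gamma_le_rpow (m : ℕ) :
    (gammaE (T m) : ℝ) ≤ (Fintype.card (Vt m) : ℝ) ^ (4 / 5 : ℝ) := by
  have h1 : (gammaE (T m) : ℝ) ≤ 5 ^ (4 * m) := by exact_mod_cast gamma_le m
  have h2 : ((5 : ℝ) ^ (5 * m)) ≤ Fintype.card (Vt m) := by exact_mod_cast card_V_ge m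
  calc (gammaE (T m) : ℝ) ≤ 5 ^ (4 * m) := h1
    _ = ((5 : ℝ) ^ (5 * m)) ^ (4 / 5 : ℝ) := by
        rw [← Real.rpow_natCast, ← Real.rpow_natCast, ← Real.rpow_mul (by norm_num)]
        congr 1
        push_cast
        ring
    _ ≤ _ := Real.rpow_le_rpow (by positivity) h2 (by norm_num)

/-- For every `Δ ≥ 6` the assertion fails for the degree bound `Δ`, by a power of `n`: there are
trees of maximum degree at most `6` and arbitrarily large order `n` with `γ_e ≤ n ^ (4/5)`. -/
theorem result :
    (¬ ∀ Δ : ℕ, BoundFor Δ) ∧ (∀ Δ : ℕ, 6 ≤ Δ → ¬ BoundFor Δ) ∧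
      ∀ N : ℕ, ∃ (V : Type) (_ : Fintype V) (T : SimpleGraph V), T.IsTree ∧
        (∀ v, (T.neighborSet v).ncard ≤ 6) ∧ N ≤ Fintype.card V ∧
        (gammaE T : ℝ) ≤ (Fintype.card V : ℝ) ^ (4 / 5 : ℝ) := by
  have hcard : ∀ m, m ≤ Fintype.card (Vt m) := by
    intro m
    refine le_trans ?_ (card_V_ge m)
    calc m ≤ 5 * m := by omega
      _ ≤ 5 ^ (5 * m) := (Nat.lt_pow_self (by norm_num)).le
  have h2 : ∀ Δ : ℕ, 6 ≤ Δ → ¬ BoundFor Δ := by
    rintro Δ hΔ ⟨c, hc, h⟩
    have hlim : Filter.Tendsto (fun x : ℝ => Real.log x / x ^ (1 / 5 : ℝ)) Filter.atTop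
        (nhds 0) := (isLittleO_log_rpow_atTop (by norm_num)).tendsto_div_nhds_zero
    have hev := hlim.eventually (gt_mem_nhds hc)
    obtain ⟨x0, hx0⟩ := Filter.eventually_atTop.1 hev
    obtain ⟨m, hm⟩ := exists_nat_ge (max x0 2)
    have hn : (m : ℝ) ≤ Fintype.card (Vt m) := by exact_mod_cast hcard m
    have hn2 : (2 : ℝ) ≤ Fintype.card (Vt m) :=
      le_trans (le_trans (le_max_right _ _) hm) hn
    have hn0 : x0 ≤ Fintype.card (Vt m) := le_trans (le_trans (le_max_left _ _) hm) hn
    have h1 := h (Vt m) (T m) (isTree m) (fun v => (degree_le m v).trans hΔ)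
      (by exact_mod_cast hn2)
    have h3 := hx0 _ hn0
    have h4 := gamma_le_rpow m
    set n : ℝ := ((Fintype.card (Vt m) : ℕ) : ℝ) with hndef
    have hnpos : 0 < n := by linarith
    have hlog : 0 < Real.log n := Real.log_pos (by linarith)
    rw [div_lt_iff₀ (by positivity)] at h3
    have h5 : c * (n / Real.log n) ≤ n ^ (4 / 5 : ℝ) := le_trans h1 h4
    rw [← mul_div_assoc, div_le_iff₀ hlog] at h5
    have h6 : n ^ (4 / 5 : ℝ) * Real.log n < n ^ (4 / 5 : ℝ) * (c * n ^ (1 / 5 : ℝ)) := by
      apply mul_lt_mul_of_pos_left h3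
      positivity
    have h7 : n ^ (4 / 5 : ℝ) * (c * n ^ (1 / 5 : ℝ)) = c * n := by
      rw [mul_left_comm, ← Real.rpow_add hnpos]
      norm_num
    linarith
  refine ⟨fun h => h2 6 le_rfl (h 6), h2, fun N => ?_⟩
  exact ⟨Vt N, inferInstance, T N, isTree N, degree_le N, hcard N, gamma_le_rpow N⟩

end Pool.Agent.Results.MP_75fda7_co.Disproof
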